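import Pool.Agent.X125.Ov.Dens

/-! No overlap for spectral self-affine measures. -/

set_option autoImplicit false
open MeasureTheory Filter Topology Matrix
open scoped ENNReal

namespace Pool.Agent.X125.Ov

variable {d : ℕ}

/-- Pushforward of a spectral-like measure under an additive measurable equivalence. -/
theorem SpecLike.map {ν : Measure (Fin d → ℝ)} (hs : SpecLike ν)
    (L : (Fin d → ℝ) ≃ᵐ (Fin d → ℝ)) (hL : ∀ x y, L.symm (x + y) = L.symm x + L.symm y) :
    SpecLike (ν.map L) := by
  obtain ⟨K, hK, hP⟩ := hs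
  refine ⟨(fun χ => χ ∘ L.symm) '' K, ?_, ?_⟩
  · rintro _ ⟨χ, hχ, rfl⟩
    obtain ⟨h1, h2, h3⟩ := hK χ hχ
    refine ⟨h1.comp L.symm.measurable, fun x => h2 _, fun x y => ?_⟩
    simp only [Function.comp, hL, h3]
  · intro h h' hh hh' hco
    have e : ∀ k : (Fin d → ℝ) → ℂ, MemLp k 2 (ν.map L) →
        MemLp (k ∘ L) 2 ν ∧ eLpNorm k 2 (ν.map L) = eLpNorm (k ∘ L) 2 ν := by
      intro k hk
      exact ⟨(memLp_map_measure_iff hk.1 L.measurable.aemeasurable).1 hk,
        eLpNorm_map_measure hk.1 L.measurable.aemeasurable⟩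
    rw [(e h hh).2, (e h' hh').2]
    apply hP _ _ (e h hh).1 (e h' hh').1
    intro χ hχ
    have := hco _ ⟨χ, hχ, rfl⟩
    rw [L.measurableEmbedding.integral_map, L.measurableEmbedding.integral_map] at this
    simpa [Function.comp] using this

/-- A measure with an orthonormal basis of exponentials is spectral-like. -/
theorem specLike_of_basis (μ : Measure (Fin d → ℝ)) [IsProbabilityMeasure μ]
    (Λ : Set (Fin d → ℝ)) (e : Λ → Lp ℂ 2 μ)
    (he : ∀ l : Λ, (e l : (Fin d → ℝ) → ℂ) =ᵐ[μ]
        fun x => Complex.exp (2 * Real.pi * Complex.I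
          * ((∑ i, (l : Fin d → ℝ) i * x i : ℝ) : ℂ)))
    (ho : Orthonormal ℂ e) (hspan : (Submodule.span ℂ (Set.range e)).topologicalClosure = ⊤) :
    SpecLike μ := by
  set χ : Λ → (Fin d → ℝ) → ℂ := fun l x => (starRingEnd ℂ) (Complex.exp (2 * Real.pi * Complex.I
          * ((∑ i, (l : Fin d → ℝ) i * x i : ℝ) : ℂ))) with hχ
  refine ⟨Set.range χ, ?_, ?_⟩
  · rintro _ ⟨l, rfl⟩
    refine ⟨?_, ?_, ?_⟩
    · rw [hχ]
      simp only
      apply Continuous.measurable
      fun_prop
    · intro x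
      rw [hχ]
      simp only [RCLike.norm_conj]
      have : (2 * Real.pi * Complex.I * ((∑ i, (l : Fin d → ℝ) i * x i : ℝ) : ℂ))
          = ((2 * Real.pi * (∑ i, (l : Fin d → ℝ) i * x i) : ℝ) : ℂ) * Complex.I := by
        push_cast; ring
      rw [this, Complex.norm_exp_ofReal_mul_I]
    · intro x y
      rw [hχ]
      simp only
      rw [← map_mul, ← Complex.exp_add]
      congr 2
      rw [← mul_add, ← Complex.ofReal_add, ← Finset.sum_add_distrib]
      congr 2
      apply Finset.sum_congr rfl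
      intro i _
      simp only [Pi.add_apply]
      ring
  · intro h h' hh hh' hco
    set b : HilbertBasis Λ ℂ (Lp ℂ 2 μ) := HilbertBasis.mk ho (by rw [hspan]) with hb
    have hcoef : ∀ (k : (Fin d → ℝ) → ℂ) (hk : MemLp k 2 μ) (l : Λ),
        (inner ℂ (e l) (hk.toLp k) : ℂ) = ∫ x, k x * χ l x ∂μ := by
      intro k hk l
      rw [L2.inner_def]
      apply integral_congr_ae
      filter_upwards [he l, hk.coeFn_toLp] with x h1 h2
      rw [h1, h2, RCLike.inner_apply]
    have hn : ∀ (k : (Fin d → ℝ) → ℂ) (hk : MemLp k 2 μ),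
        ‖hk.toLp k‖ = (∑' l : Λ, ‖∫ x, k x * χ l x ∂μ‖ ^ (2 : ℝ)) ^ (1 / (2 : ℝ)) := by
      intro k hk
      rw [← b.repr.norm_map (hk.toLp k)]
      rw [lp.norm_eq_tsum_rpow (by norm_num)]
      simp only [ENNReal.toReal_ofNat]
      congr 1
      congr 1
      funext l
      rw [b.repr_apply_apply, hb, HilbertBasis.coe_mk, hcoef]
    have heq : ‖hh.toLp h‖ = ‖hh'.toLp h'‖ := by
      rw [hn h hh, hn h' hh']
      congr 1
      congr 1
      funext l
      rw [hco (χ l) ⟨l, rfl⟩]
    rw [Lp.norm_toLp, Lp.norm_toLp] at heq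
    exact (ENNReal.toReal_eq_toReal_iff' hh.2.ne hh'.2.ne).1 heq

/-- The real linear map of an integer matrix. -/
noncomputable def RM (R : Matrix (Fin d) (Fin d) ℤ) (x : Fin d → ℝ) : Fin d → ℝ :=
  (R.map (Int.castRingHom ℝ)) *ᵥ x

theorem RM_add (R : Matrix (Fin d) (Fin d) ℤ) (x y : Fin d → ℝ) : RM R (x + y) = RM R x + RM R y :=
  Matrix.mulVec_add _ _ _

theorem RM_sub (R : Matrix (Fin d) (Fin d) ℤ) (x y : Fin d → ℝ) : RM R (x - y) = RM R x - RM R y :=
  Matrix.mulVec_sub _ _ _

theorem RM_meas (R : Matrix (Fin d) (Fin d) ℤ) : Measurable (RM R) := by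
  apply Continuous.measurable
  unfold RM
  exact Continuous.matrix_mulVec continuous_const continuous_id

theorem RM_zr (R : Matrix (Fin d) (Fin d) ℤ) (z : Fin d → ℤ) : RM R (zr z) = zr (R *ᵥ z) := by
  funext i
  simp [RM, zr, Matrix.mulVec, dotProduct, Matrix.map_apply]

/-- The iterates. -/
noncomputable def LL (R : Matrix (Fin d) (Fin d) ℤ) : ℕ → (Fin d → ℝ) → (Fin d → ℝ)
  | 0, x => x
  | n + 1, x => RM R (LL R n x)

theorem LL_meas (R : Matrix (Fin d) (Fin d) ℤ) (n : ℕ) : Measurable (LL R n) := by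
  induction n with
  | zero => exact measurable_id
  | succ n ih => exact (RM_meas R).comp ih

theorem LL_zero (R : Matrix (Fin d) (Fin d) ℤ) : LL R 0 = id := rfl

theorem LL_succ (R : Matrix (Fin d) (Fin d) ℤ) (n : ℕ) : LL R (n + 1) = RM R ∘ LL R n := rfl

instance instNEWd (B : Finset (Fin d → ℤ)) [hB : Nonempty {b // b ∈ B}] : ∀ n, Nonempty (Wd B n)
  | 0 => inferInstanceAs (Nonempty Unit)
  | n + 1 => letI := instNEWd B n; inferInstanceAs (Nonempty ({b // b ∈ B} × Wd B n))

/-- The law of `R^n x`. -/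
theorem law (R : Matrix (Fin d) (Fin d) ℤ) (B : Finset (Fin d → ℤ)) (μ : Measure (Fin d → ℝ))
    [Nonempty {b // b ∈ B}]
    (hμ : μ.map (RM R) = (B.card : ℝ≥0∞)⁻¹ • ∑ b ∈ B, μ.map (fun x => x + zr b)) (n : ℕ) :
    μ.map (LL R n) = ((Fintype.card (Wd B n) : ℝ≥0∞)⁻¹) •
      ∑ w : Wd B n, μ.map (fun x => x + zr (zz R B n w)) := by
  induction n with
  | zero =>
    have h1 : ∀ w : Wd B 0, μ.map (fun x => x + zr (zz R B 0 w)) = μ := by
      intro w
      have : zz R B 0 w = 0 := rfl
      rw [this, zr_zero]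
      simp
    simp only [h1]
    rw [Finset.sum_const, Finset.card_univ, card_Wd]
    simp [LL_zero]
  | succ n ih =>
    rw [LL_succ, ← Measure.map_map (RM_meas R) (LL_meas R n), ih, Measure.map_smul]
    have hmapsum : ∀ (s : Finset (Wd B n)) (m : Wd B n → Measure (Fin d → ℝ)),
        (∑ w ∈ s, m w).map (RM R) = ∑ w ∈ s, (m w).map (RM R) := by
      intro s m
      ext A hA
      rw [Measure.map_apply (RM_meas R) hA, Measure.finsetSum_apply, Measure.finsetSum_apply]
      apply Finset.sum_congr rfl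
      intro w _
      rw [Measure.map_apply (RM_meas R) hA]
    rw [hmapsum]
    have h2 : ∀ w : Wd B n, (μ.map (fun x => x + zr (zz R B n w))).map (RM R)
        = (B.card : ℝ≥0∞)⁻¹ • ∑ b : {b // b ∈ B},
          μ.map (fun x => x + zr (zz R B (n + 1) (cw b w))) := by
      intro w
      have h3 : (μ.map (fun x => x + zr (zz R B n w))).map (RM R)
          = (μ.map (RM R)).map (fun x => x + zr (R *ᵥ zz R B n w)) := by
        rw [Measure.map_map (RM_meas R) (sh_meas _), Measure.map_map (sh_meas _) (RM_meas R)]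
        congr 1
        funext x
        simp only [Function.comp, RM_add, RM_zr]
      rw [h3, hμ, Measure.map_smul]
      congr 1
      ext A hA
      rw [Measure.map_apply (sh_meas _) hA, Measure.finsetSum_apply, Measure.finsetSum_apply,
        ← Finset.sum_coe_sort B]
      apply Finset.sum_congr rfl
      intro b _
      rw [Measure.map_apply (sh_meas _) ((sh_meas _) hA), Measure.map_apply (sh_meas _) hA]
      congr 1
      ext x
      simp only [Set.mem_preimage]
      rw [zz_cw, zr_add, add_assoc]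
    simp only [h2]
    rw [sum_Wd_succ, ← Finset.smul_sum, smul_smul]
    congr 1
    rw [card_Wd, card_Wd, pow_succ]
    push_cast
    rw [ENNReal.mul_inv (Or.inr (by simp)) (Or.inl (by
      exact ENNReal.pow_ne_top (by simp)))]

theorem words_inj (R : Matrix (Fin d) (Fin d) ℤ) (B : Finset (Fin d → ℤ))
    (μ : Measure (Fin d → ℝ)) [IsProbabilityMeasure μ] [Nonempty {b // b ∈ B}]
    (hμ : μ.map (RM R) = (B.card : ℝ≥0∞)⁻¹ • ∑ b ∈ B, μ.map (fun x => x + zr b))
    (hdet : R.det ≠ 0) (hs : SpecLike μ) (n : ℕ) : Function.Injective (zz R B n) := by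
  have hdetR : IsUnit (R.map (Int.castRingHom ℝ)).det := by
    rw [← RingHom.mapMatrix_apply, ← RingHom.map_det]
    simpa using hdet
  set Lq : (Fin d → ℝ) ≃ᵐ (Fin d → ℝ) :=
    { toFun := RM R
      invFun := fun x => (R.map (Int.castRingHom ℝ))⁻¹ *ᵥ x
      left_inv := by
        intro x
        simp only [RM]
        rw [Matrix.mulVec_mulVec, Matrix.nonsing_inv_mul _ hdetR, Matrix.one_mulVec]
      right_inv := by
        intro x
        simp only [RM]
        rw [Matrix.mulVec_mulVec, Matrix.mul_nonsing_inv _ hdetR, Matrix.one_mulVec]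
      measurable_toFun := RM_meas R
      measurable_invFun := by
        apply Continuous.measurable
        exact Continuous.matrix_mulVec continuous_const continuous_id } with hLq
  have hLs : ∀ x y, Lq.symm (x + y) = Lq.symm x + Lq.symm y := by
    intro x y
    change (R.map (Int.castRingHom ℝ))⁻¹ *ᵥ (x + y) = (R.map (Int.castRingHom ℝ))⁻¹ *ᵥ x
      + (R.map (Int.castRingHom ℝ))⁻¹ *ᵥ y
    exact Matrix.mulVec_add _ _ _
  have hsn : SpecLike (μ.map (LL R n)) := by
    induction n with
    | zero => rw [LL_zero, Measure.map_id]; exact hs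
    | succ n ih =>
      rw [LL_succ, ← Measure.map_map (RM_meas R) (LL_meas R n)]
      exact ih.map Lq hLs
  have hfin : IsFiniteMeasure (μ.map (LL R n)) := by
    have := Measure.isProbabilityMeasure_map (μ := μ) (LL_meas R n).aemeasurable
    infer_instance
  have hRinj : Function.Injective (fun v : Fin d → ℤ => R *ᵥ v) := by
    intro v w hvw
    simp only at hvw
    apply zr_inj
    have : RM R (zr v) = RM R (zr w) := by rw [RM_zr, RM_zr, hvw]
    exact Lq.injective this
  have hBne : B.Nonempty := by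
    obtain ⟨b⟩ := (inferInstance : Nonempty {b // b ∈ B})
    exact ⟨b.1, b.2⟩
  refine inj_of_rigid μ hs (zz R B n) ?_ (μ.map (LL R n)) (law R B μ hμ n) hsn
  intro p hp
  have : Fact p.Prime := ⟨hp⟩
  exact alg_ne_zero R B hBne hRinj p n

/-- Bound for the number of integer points in translates of a compact set. -/
theorem exists_count (T : Set (Fin d → ℝ)) (hT : IsCompact T) :
    ∃ M : ℕ, ∀ y : Fin d → ℝ, ∀ F : Finset (Fin d → ℤ), (∀ z ∈ F, y - zr z ∈ T) → F.card ≤ M := by
  obtain ⟨r, hr⟩ := hT.isBounded.subset_closedBall 0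
  set K : ℤ := ⌈2 * r⌉ with hK
  refine ⟨(Finset.Icc (fun _ => -K : Fin d → ℤ) (fun _ => K)).card, ?_⟩
  intro y F hF
  rcases F.eq_empty_or_nonempty with h0 | ⟨z0, hz0⟩
  · rw [h0]; simp
  · have hinj : Set.InjOn (fun z : Fin d → ℤ => z - z0) F := by
      intro a _ b _ hab
      simpa using hab
    rw [← Finset.card_image_of_injOn hinj]
    apply Finset.card_le_card
    intro u hu
    rw [Finset.mem_image] at hu
    obtain ⟨z, hz, rfl⟩ := hu
    have h1 := hr (hF z hz)
    have h2 := hr (hF z0 hz0)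
    rw [mem_closedBall_zero_iff] at h1 h2
    have hb : ∀ i, |((z - z0) i : ℝ)| ≤ 2 * r := by
      intro i
      have h3 := (norm_le_pi_norm (y - zr z) i).trans h1
      have h4 := (norm_le_pi_norm (y - zr z0) i).trans h2
      simp only [Pi.sub_apply, zr, Real.norm_eq_abs] at h3 h4
      have e : ((z - z0) i : ℝ) = (y i - (z0 i : ℝ)) - (y i - (z i : ℝ)) := by
        simp only [Pi.sub_apply]; push_cast; ring
      rw [e]
      calc |(y i - (z0 i : ℝ)) - (y i - (z i : ℝ))| ≤ |y i - (z0 i : ℝ)| + |y i - (z i : ℝ)| :=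
            abs_sub _ _
        _ ≤ 2 * r := by linarith
    rw [Finset.mem_Icc]
    constructor
    · intro i
      have h5 := (abs_le.1 (hb i)).1
      have h6 : (2 * r : ℝ) ≤ K := Int.le_ceil _
      have h7 : (-(K : ℝ)) ≤ ((z - z0) i : ℝ) := by linarith
      exact_mod_cast h7
    · intro i
      have h5 := (abs_le.1 (hb i)).2
      have h6 : (2 * r : ℝ) ≤ K := Int.le_ceil _
      have h7 : ((z - z0) i : ℝ) ≤ (K : ℝ) := by linarith
      exact_mod_cast h7

theorem no_overlap (R : Matrix (Fin d) (Fin d) ℤ) (B : Finset (Fin d → ℤ))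
    (μ : Measure (Fin d → ℝ)) [IsProbabilityMeasure μ] [Nonempty {b // b ∈ B}]
    (hμ : μ.map (RM R) = (B.card : ℝ≥0∞)⁻¹ • ∑ b ∈ B, μ.map (fun x => x + zr b))
    (hdet : R.det ≠ 0) (hs : SpecLike μ) (T : Set (Fin d → ℝ)) (hT : IsCompact T)
    (hTB : ∀ y, y ∈ T ↔ ∃ b ∈ B, RM R y - zr b ∈ T)
    (b1 b2 : Fin d → ℤ) (hb1 : b1 ∈ B) (hb2 : b2 ∈ B) (hne : b1 ≠ b2) :
    μ {y | RM R y - zr b1 ∈ T ∧ RM R y - zr b2 ∈ T} = 0 := by
  have hTm : MeasurableSet T := hT.measurableSet
  set O : Set (Fin d → ℝ) := {y | RM R y - zr b1 ∈ T ∧ RM R y - zr b2 ∈ T} with hO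
  have hRm : ∀ b : Fin d → ℤ, Measurable (fun y : Fin d → ℝ => RM R y - zr b) := fun b =>
    (RM_meas R).sub_const _
  have hOm : MeasurableSet O := (hRm b1 hTm).inter (hRm b2 hTm)
  obtain ⟨M, hM⟩ := exists_count T hT
  set C : ∀ n, Wd B n → Set (Fin d → ℝ) := fun n w => {y | LL R n y - zr (zz R B n w) ∈ T} with hC
  have hLm : ∀ n (z : Fin d → ℤ), Measurable (fun y : Fin d → ℝ => LL R n y - zr z) := fun n z =>
    (LL_meas R n).sub_const _
  have hCm : ∀ n w, MeasurableSet (C n w) := fun n w => hLm n _ hTm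
  -- upper bound
  have hupper : ∀ n, ∑ w : Wd B n, μ (C n w) ≤ M := by
    intro n
    have h1 : ∑ w : Wd B n, μ (C n w) = ∫⁻ y, ∑ w : Wd B n, (C n w).indicator (fun _ => 1) y ∂μ := by
      rw [lintegral_finsetSum _ (fun w _ => measurable_const.indicator (hCm n w))]
      apply Finset.sum_congr rfl
      intro w _
      rw [lintegral_indicator (hCm n w)]
      simp
    rw [h1]
    calc ∫⁻ y, ∑ w : Wd B n, (C n w).indicator (fun _ => (1 : ℝ≥0∞)) y ∂μ ≤ ∫⁻ _, (M : ℝ≥0∞) ∂μ := by
          apply lintegral_mono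
          intro y
          classical
          have h2 : ∑ w : Wd B n, (C n w).indicator (fun _ => (1 : ℝ≥0∞)) y
              = ((Finset.univ.filter (fun w : Wd B n => y ∈ C n w)).card : ℝ≥0∞) := by
            rw [Finset.card_filter]
            push_cast
            apply Finset.sum_congr rfl
            intro w _
            by_cases h : y ∈ C n w <;> simp [h]
          simp only
          rw [h2]
          have hinj := words_inj R B μ hμ hdet hs n
          have h3 := hM (LL R n y) ((Finset.univ.filter (fun w : Wd B n => y ∈ C n w)).image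
            (zz R B n)) (by
              intro z hz
              rw [Finset.mem_image] at hz
              obtain ⟨w, hw, rfl⟩ := hz
              simp only [Finset.mem_filter, Finset.mem_univ, true_and] at hw
              exact hw)
          rw [Finset.card_image_of_injective _ hinj] at h3
          exact_mod_cast h3
      _ = M := by simp
  -- growth
  have hgrow : ∀ n, ∑ w : Wd B n, μ (C n w) + μ O ≤ ∑ w : Wd B (n + 1), μ (C (n + 1) w) := by
    intro n
    rw [sum_Wd_succ]
    set D : Wd B n → Set (Fin d → ℝ) := fun w => {y | LL R n y - zr (zz R B n w) ∈ O} with hD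
    have hDm : ∀ w, MeasurableSet (D w) := fun w => hLm n _ hOm
    have h1 : ∀ w : Wd B n, μ (C n w) + μ (D w) ≤ ∑ b : {b // b ∈ B}, μ (C (n + 1) (cw b w)) := by
      intro w
      have hmem : ∀ (b : {b // b ∈ B}) y, y ∈ C (n + 1) (cw b w) ↔
          RM R (LL R n y - zr (zz R B n w)) - zr b.1 ∈ T := by
        intro b y
        have e : LL R (n + 1) y - zr (zz R B (n + 1) (cw b w))
            = RM R (LL R n y - zr (zz R B n w)) - zr b.1 := by
          rw [zz_cw, zr_add, RM_sub, RM_zr, LL_succ]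
          simp only [Function.comp]
          abel
        change LL R (n + 1) y - zr (zz R B (n + 1) (cw b w)) ∈ T ↔ _
        rw [e]
      have i1 : ∀ A : Set (Fin d → ℝ), MeasurableSet A → μ A = ∫⁻ y, A.indicator (fun _ => 1) y ∂μ := by
        intro A hA
        rw [lintegral_indicator hA]; simp
      rw [i1 _ (hCm n w), i1 _ (hDm w), ← lintegral_add_left (measurable_const.indicator (hCm n w))]
      have i2 : ∑ b : {b // b ∈ B}, μ (C (n + 1) (cw b w))
          = ∫⁻ y, ∑ b : {b // b ∈ B}, (C (n + 1) (cw b w)).indicator (fun _ => 1) y ∂μ := by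
        rw [lintegral_finsetSum _ (fun b _ => measurable_const.indicator (hCm (n + 1) _))]
        apply Finset.sum_congr rfl
        intro b _
        exact i1 _ (hCm _ _)
      rw [i2]
      apply lintegral_mono
      intro y
      simp only
      by_cases hyD : y ∈ D w
      · have hb12 : (⟨b1, hb1⟩ : {b // b ∈ B}) ≠ ⟨b2, hb2⟩ := fun h => hne (Subtype.mk.inj h)
        have hy1 : y ∈ C (n + 1) (cw ⟨b1, hb1⟩ w) := (hmem _ y).2 hyD.1
        have hy2 : y ∈ C (n + 1) (cw ⟨b2, hb2⟩ w) := (hmem _ y).2 hyD.2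
        calc (C n w).indicator (fun _ => (1 : ℝ≥0∞)) y + (D w).indicator (fun _ => 1) y ≤ 1 + 1 := by
              gcongr
              · exact Set.indicator_le_self' (fun _ _ => bot_le) _
              · exact Set.indicator_le_self' (fun _ _ => bot_le) _
          _ = ∑ b ∈ ({⟨b1, hb1⟩, ⟨b2, hb2⟩} : Finset {b // b ∈ B}),
              (C (n + 1) (cw b w)).indicator (fun _ => (1 : ℝ≥0∞)) y := by
              rw [Finset.sum_pair hb12, Set.indicator_of_mem hy1, Set.indicator_of_mem hy2]
          _ ≤ _ := Finset.sum_le_sum_of_subset (Finset.subset_univ _)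
      · rw [Set.indicator_of_notMem hyD, add_zero]
        by_cases hyC : y ∈ C n w
        · obtain ⟨b, hb, hbT⟩ := (hTB _).1 hyC
          have hy1 : y ∈ C (n + 1) (cw ⟨b, hb⟩ w) := (hmem _ y).2 hbT
          rw [Set.indicator_of_mem hyC]
          calc (1 : ℝ≥0∞) = (C (n + 1) (cw ⟨b, hb⟩ w)).indicator (fun _ => (1 : ℝ≥0∞)) y := by
                rw [Set.indicator_of_mem hy1]
            _ ≤ _ := Finset.single_le_sum (f := fun b : {b // b ∈ B} =>
                (C (n + 1) (cw b w)).indicator (fun _ => (1 : ℝ≥0∞)) y) (fun _ _ => bot_le)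
                (Finset.mem_univ _)
        · rw [Set.indicator_of_notMem hyC]; exact bot_le
    have h2 : μ O ≤ ∑ w : Wd B n, μ (D w) := by
      have h3 : ∀ w : Wd B n, (Fintype.card (Wd B n) : ℝ≥0∞)⁻¹ * μ O ≤ μ (D w) := by
        intro w
        have e1 : μ (D w) = (μ.map (LL R n)) {x | x - zr (zz R B n w) ∈ O} := by
          rw [Measure.map_apply (LL_meas R n)]
          · rfl
          · have : Measurable (fun x : Fin d → ℝ => x - zr (zz R B n w)) := by fun_prop
            exact this hOm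
        rw [e1, law R B μ hμ n, Measure.smul_apply, Measure.finsetSum_apply, smul_eq_mul]
        apply mul_le_mul_right
        have e2 : μ O = (μ.map (fun x => x + zr (zz R B n w))) {x | x - zr (zz R B n w) ∈ O} := by
          rw [Measure.map_apply (sh_meas _)]
          · congr 1
            ext x
            simp
          · have : Measurable (fun x : Fin d → ℝ => x - zr (zz R B n w)) := by fun_prop
            exact this hOm
        rw [e2]
        exact Finset.single_le_sum (f := fun w' : Wd B n =>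
          (μ.map (fun x => x + zr (zz R B n w'))) {x | x - zr (zz R B n w) ∈ O})
          (fun _ _ => bot_le) (Finset.mem_univ w)
      calc μ O = ∑ w : Wd B n, (Fintype.card (Wd B n) : ℝ≥0∞)⁻¹ * μ O := by
            rw [Finset.sum_const, Finset.card_univ, nsmul_eq_mul, ← mul_assoc,
              ENNReal.mul_inv_cancel (by simp) (by simp), one_mul]
        _ ≤ _ := Finset.sum_le_sum (fun w _ => h3 w)
    calc ∑ w : Wd B n, μ (C n w) + μ O ≤ ∑ w : Wd B n, μ (C n w) + ∑ w : Wd B n, μ (D w) := by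
          gcongr
      _ = ∑ w : Wd B n, (μ (C n w) + μ (D w)) := by rw [Finset.sum_add_distrib]
      _ ≤ _ := Finset.sum_le_sum (fun w _ => h1 w)
  have hall : ∀ n : ℕ, (n : ℝ≥0∞) * μ O ≤ ∑ w : Wd B n, μ (C n w) := by
    intro n
    induction n with
    | zero => simp
    | succ n ih =>
      refine le_trans ?_ (hgrow n)
      push_cast
      rw [add_mul, one_mul]
      gcongr
  by_contra hne0
  have h1 : ∀ n : ℕ, (n : ℝ≥0∞) ≤ M / μ O := by
    intro n
    rw [ENNReal.le_div_iff_mul_le (Or.inl hne0) (Or.inl (measure_ne_top _ _))]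
    exact (hall n).trans (hupper n)
  have h2 : (M : ℝ≥0∞) / μ O ≠ ⊤ := ENNReal.div_ne_top (by simp) hne0
  obtain ⟨n, hn⟩ := ENNReal.exists_nat_gt h2
  exact absurd (h1 n) (not_le.2 hn)

end Pool.Agent.X125.Ov
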