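import Mathlib

/-! Combinatorial part: no exact overlaps. -/

set_option autoImplicit false
open Finset Matrix

namespace Pool.Agent.X125.Ov

theorem inj_of_const {G : Type*} [AddCommGroup G] [DecidableEq G] [UniqueSums G]
    {I : Type*} [Fintype I] [DecidableEq I] (z : I → G) (S : Finset G) (hS : S.Nonempty)
    (hnz : ∀ p : ℕ, p.Prime → (∑ w, AddMonoidAlgebra.single (z w) (1 : ZMod p)) ≠ 0)
    (hc : ∀ u u' : G, (univ.filter (fun w => u - z w ∈ S)).card ≠ 0 →
      (univ.filter (fun w => u' - z w ∈ S)).card ≠ 0 →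
      (univ.filter (fun w => u - z w ∈ S)).card = (univ.filter (fun w => u' - z w ∈ S)).card) :
    Function.Injective z := by
  by_contra hinj
  rw [Function.Injective] at hinj
  push Not at hinj
  obtain ⟨w, w', hz, hne⟩ := hinj
  obtain ⟨s, hs⟩ := hS
  set c : G → ℕ := fun u => (univ.filter (fun w => u - z w ∈ S)).card with hcdef
  have h2 : 2 ≤ c (z w + s) := by
    have hsub : ({w, w'} : Finset I) ⊆ univ.filter (fun v => z w + s - z v ∈ S) := by
      intro v hv
      simp only [mem_insert, mem_singleton] at hv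
      simp only [mem_filter, mem_univ, true_and]
      rcases hv with rfl | rfl
      · simpa using hs
      · rw [hz]; simpa using hs
    have := card_le_card hsub
    rwa [card_pair hne] at this
  obtain ⟨p, hp, hpc⟩ := Nat.exists_prime_and_dvd (show c (z w + s) ≠ 1 by omega)
  have hall : ∀ u, p ∣ c u := by
    intro u
    by_cases h0 : c u = 0
    · rw [h0]; exact dvd_zero _
    · have h3 : c u = c (z w + s) := hc u (z w + s) h0 (by change c (z w + s) ≠ 0; omega)
      rw [h3]
      exact hpc
  have : Fact p.Prime := ⟨hp⟩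
  set a : AddMonoidAlgebra (ZMod p) G := ∑ w, AddMonoidAlgebra.single (z w) (1 : ZMod p) with ha
  set b : AddMonoidAlgebra (ZMod p) G := ∑ t ∈ S, AddMonoidAlgebra.single t (1 : ZMod p) with hb
  have hcoef : ∀ u, (a * b).coeff u = (c u : ZMod p) := by
    intro u
    rw [ha, hb, Finset.sum_mul_sum]
    simp only [AddMonoidAlgebra.single_mul_single, mul_one]
    rw [AddMonoidAlgebra.coeff_sum, Finsupp.finsetSum_apply]
    have e : ∀ v : I, (∑ t ∈ S, (AddMonoidAlgebra.single (z v + t) (1 : ZMod p)
        : AddMonoidAlgebra (ZMod p) G)).coeff u = if u - z v ∈ S then 1 else 0 := by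
      intro v
      rw [AddMonoidAlgebra.coeff_sum, Finsupp.finsetSum_apply]
      have : ∀ t ∈ S, (AddMonoidAlgebra.single (z v + t) (1 : ZMod p)
          : AddMonoidAlgebra (ZMod p) G).coeff u = if u - z v = t then 1 else 0 := by
        intro t _
        rw [AddMonoidAlgebra.coeff_single_apply]
        congr 1
        rw [eq_iff_iff]
        constructor
        · intro h; rw [← h]; abel
        · intro h; rw [← h]; abel
      rw [Finset.sum_congr rfl this, Finset.sum_ite_eq]
    rw [Finset.sum_congr rfl (fun v _ => e v), Finset.sum_boole]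
  have hab : a * b = 0 := by
    apply AddMonoidAlgebra.coeff_injective
    ext u
    rw [hcoef u]
    simp only [AddMonoidAlgebra.coeff_zero, Finsupp.coe_zero, Pi.zero_apply]
    exact (ZMod.natCast_eq_zero_iff _ _).2 (hall u)
  have hbne : b ≠ 0 := by
    intro h
    have h1 : b.coeff s = 0 := by rw [h]; rfl
    rw [hb, AddMonoidAlgebra.coeff_sum, Finsupp.finsetSum_apply] at h1
    have : ∀ t ∈ S, (AddMonoidAlgebra.single t (1 : ZMod p)
        : AddMonoidAlgebra (ZMod p) G).coeff s = if s = t then 1 else 0 := by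
      intro t _
      rw [AddMonoidAlgebra.coeff_single_apply]
      congr 1
      rw [eq_iff_iff]
      exact eq_comm
    rw [Finset.sum_congr rfl this, Finset.sum_ite_eq, if_pos hs] at h1
    exact one_ne_zero h1
  rcases mul_eq_zero.1 hab with h | h
  · exact hnz p hp h
  · exact hbne h

variable {d : ℕ}

/-- Words. -/
def Wd (B : Finset (Fin d → ℤ)) : ℕ → Type
  | 0 => Unit
  | n + 1 => {b // b ∈ B} × Wd B n

instance instFWd (B : Finset (Fin d → ℤ)) : ∀ n, Fintype (Wd B n)
  | 0 => inferInstanceAs (Fintype Unit)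
  | n + 1 => letI := instFWd B n; inferInstanceAs (Fintype ({b // b ∈ B} × Wd B n))

instance instDWd (B : Finset (Fin d → ℤ)) : ∀ n, DecidableEq (Wd B n)
  | 0 => inferInstanceAs (DecidableEq Unit)
  | n + 1 => letI := instDWd B n; inferInstanceAs (DecidableEq ({b // b ∈ B} × Wd B n))

/-- The integer point of a word. -/
def zz (R : Matrix (Fin d) (Fin d) ℤ) (B : Finset (Fin d → ℤ)) : ∀ n, Wd B n → (Fin d → ℤ)
  | 0, _ => 0
  | n + 1, w => w.1.1 + R *ᵥ zz R B n w.2

/-- Append a letter. -/
def cw {B : Finset (Fin d → ℤ)} {n : ℕ} (b : {b // b ∈ B}) (w : Wd B n) : Wd B (n + 1) := (b, w)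

theorem zz_cw (R : Matrix (Fin d) (Fin d) ℤ) {B : Finset (Fin d → ℤ)} {n : ℕ}
    (b : {b // b ∈ B}) (w : Wd B n) : zz R B (n + 1) (cw b w) = b.1 + R *ᵥ zz R B n w := rfl

theorem card_Wd (B : Finset (Fin d → ℤ)) (n : ℕ) : Fintype.card (Wd B n) = B.card ^ n := by
  induction n with
  | zero => rfl
  | succ n ih =>
    have : Fintype.card (Wd B (n + 1)) = Fintype.card ({b // b ∈ B} × Wd B n) := rfl
    rw [this, Fintype.card_prod, ih, Fintype.card_coe, pow_succ, mul_comm]

theorem sum_Wd_succ {M : Type*} [AddCommMonoid M] (B : Finset (Fin d → ℤ)) (n : ℕ)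
    (F : Wd B (n + 1) → M) : ∑ w, F w = ∑ w : Wd B n, ∑ b : {b // b ∈ B}, F (cw b w) := by
  have h : ∑ w, F w = ∑ w : ({b // b ∈ B} × Wd B n), (fun v : {b // b ∈ B} × Wd B n => F v) w :=
    rfl
  refine h.trans ?_
  refine (Fintype.sum_prod_type _).trans ?_
  exact Finset.sum_comm

theorem alg_ne_zero (R : Matrix (Fin d) (Fin d) ℤ) (B : Finset (Fin d → ℤ)) (hB : B.Nonempty)
    (hR : Function.Injective (fun v : Fin d → ℤ => R *ᵥ v)) (p : ℕ) [Fact p.Prime] (n : ℕ) :
    (∑ w : Wd B n, AddMonoidAlgebra.single (zz R B n w) (1 : ZMod p)) ≠ 0 := by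
  induction n with
  | zero =>
    have : (∑ w : Wd B 0, AddMonoidAlgebra.single (zz R B 0 w) (1 : ZMod p))
        = AddMonoidAlgebra.single (0 : Fin d → ℤ) (1 : ZMod p) := by
      have e : ∀ w : Wd B 0, zz R B 0 w = 0 := fun w => rfl
      simp only [e]
      rw [Finset.sum_const, Finset.card_univ, card_Wd]
      simp
    rw [this]
    intro h
    exact one_ne_zero (AddMonoidAlgebra.single_eq_zero.1 h)
  | succ n ih =>
    set Rh : (Fin d → ℤ) →+ (Fin d → ℤ) :=
      { toFun := fun v => R *ᵥ v, map_zero' := Matrix.mulVec_zero _,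
        map_add' := fun x y => Matrix.mulVec_add _ _ _ } with hRh
    have hsplit : (∑ w : Wd B (n + 1), AddMonoidAlgebra.single (zz R B (n + 1) w) (1 : ZMod p))
        = (∑ b ∈ B, AddMonoidAlgebra.single b (1 : ZMod p)) *
          AddMonoidAlgebra.mapDomainRingHom (ZMod p) Rh
            (∑ w : Wd B n, AddMonoidAlgebra.single (zz R B n w) (1 : ZMod p)) := by
      rw [map_sum, Finset.sum_mul_sum, sum_Wd_succ, Finset.sum_comm, ← Finset.sum_coe_sort B]
      apply Finset.sum_congr rfl
      intro b _
      apply Finset.sum_congr rfl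
      intro w _
      rw [AddMonoidAlgebra.mapDomainRingHom_apply, AddMonoidAlgebra.mapDomain_single,
        AddMonoidAlgebra.single_mul_single, mul_one]
      rfl
    rw [hsplit]
    apply mul_ne_zero
    · obtain ⟨b, hb⟩ := hB
      intro h
      have h1 := congrArg (fun f : AddMonoidAlgebra (ZMod p) (Fin d → ℤ) => f.coeff b) h
      rw [AddMonoidAlgebra.coeff_sum, Finsupp.finsetSum_apply] at h1
      have : ∀ t ∈ B, (AddMonoidAlgebra.single t (1 : ZMod p)
          : AddMonoidAlgebra (ZMod p) (Fin d → ℤ)).coeff b = if b = t then 1 else 0 := by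
        intro t _
        rw [AddMonoidAlgebra.coeff_single_apply]
        congr 1
        rw [eq_iff_iff]
        exact eq_comm
      rw [Finset.sum_congr rfl this, Finset.sum_ite_eq, if_pos hb] at h1
      exact one_ne_zero h1
    · intro h
      apply ih
      have hinj : Function.Injective (AddMonoidAlgebra.mapDomainRingHom (ZMod p) Rh) := by
        intro x y hxy
        exact AddMonoidAlgebra.mapDomain_injective hR hxy
      exact hinj (by rw [h, map_zero])

end Pool.Agent.X125.Ov
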