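import Pool.Agent.X125.Ov.LemU
import Pool.Agent.X125.Ov.Comb

/-! The invariant measure and densities. -/

set_option autoImplicit false
open MeasureTheory Filter Topology
open scoped ENNReal

namespace Pool.Agent.X125.Ov

variable {d : ℕ}

/-- Integer vector as a real vector. -/
def zr (z : Fin d → ℤ) : Fin d → ℝ := fun i => (z i : ℝ)

theorem zr_add (z w : Fin d → ℤ) : zr (z + w) = zr z + zr w := by
  funext i; simp [zr]

theorem zr_sub (z w : Fin d → ℤ) : zr (z - w) = zr z - zr w := by
  funext i; simp [zr]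

theorem zr_neg (z : Fin d → ℤ) : zr (-z) = - zr z := by
  funext i; simp [zr]

theorem zr_zero : zr (0 : Fin d → ℤ) = 0 := by
  funext i; simp [zr]

theorem zr_inj {z w : Fin d → ℤ} (h : zr z = zr w) : z = w := by
  funext i
  have := congrFun h i
  simp only [zr] at this
  exact_mod_cast this

theorem sh_meas (v : Fin d → ℝ) : Measurable (fun x : Fin d → ℝ => x + v) := by fun_prop

/-- Sum of all integer translates. -/
noncomputable def Theta (μ : Measure (Fin d → ℝ)) : Measure (Fin d → ℝ) :=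
  Measure.sum (fun z : Fin d → ℤ => μ.map (fun x => x + zr z))

theorem Theta_apply (μ : Measure (Fin d → ℝ)) {A : Set (Fin d → ℝ)} (hA : MeasurableSet A) :
    Theta μ A = ∑' z : Fin d → ℤ, μ ((fun x => x + zr z) ⁻¹' A) := by
  unfold Theta
  rw [Measure.sum_apply _ hA]
  congr 1
  funext z
  rw [Measure.map_apply (sh_meas _) hA]

theorem Theta_inv (μ : Measure (Fin d → ℝ)) (v : Fin d → ℤ) :
    (Theta μ).map (fun x => x + zr v) = Theta μ := by
  ext A hA
  rw [Measure.map_apply (sh_meas _) hA, Theta_apply μ ((sh_meas _) hA), Theta_apply μ hA]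
  rw [← (Equiv.addRight v).tsum_eq (fun z => μ ((fun x => x + zr z) ⁻¹' A))]
  congr 1
  funext z
  congr 1
  ext x
  simp only [Set.mem_preimage, Equiv.coe_addRight, zr_add, add_assoc]

/-- Coordinatewise floor. -/
noncomputable def fl (x : Fin d → ℝ) : Fin d → ℤ := fun i => ⌊x i⌋

theorem fl_meas : Measurable (fl (d := d)) := by
  refine measurable_pi_iff.2 fun i => ?_
  exact Int.measurable_floor.comp (measurable_pi_apply i)

theorem Theta_sigmaFinite (μ : Measure (Fin d → ℝ)) [IsFiniteMeasure μ] :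
    SigmaFinite (Theta μ) := by
  apply Measure.sigmaFinite_of_countable
    (S := Set.range (fun w : Fin d → ℤ => fl ⁻¹' {w})) (Set.countable_range _)
  · rintro _ ⟨w, rfl⟩
    have hm : ∀ w : Fin d → ℤ, MeasurableSet (fl (d := d) ⁻¹' {w}) := fun w =>
      fl_meas (measurableSet_singleton w)
    rw [Theta_apply μ (hm w)]
    have h1 : ∀ z : Fin d → ℤ, (fun x : Fin d → ℝ => x + zr z) ⁻¹' (fl ⁻¹' {w})
        = fl ⁻¹' {w - z} := by
      intro z
      ext x
      simp only [Set.mem_preimage, Set.mem_singleton_iff]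
      have : fl (x + zr z) = fl x + z := by
        funext i
        simp [fl, zr, Int.floor_add_intCast]
      rw [this]
      constructor
      · intro h; rw [← h]; abel
      · intro h; rw [h]; abel
    simp only [h1]
    rw [← (Equiv.subLeft w).tsum_eq]
    simp only [Equiv.subLeft_apply, sub_sub_cancel]
    rw [← measure_iUnion]
    · exact measure_lt_top _ _
    · intro a b hab
      rw [Function.onFun, Set.disjoint_left]
      intro x hx hx'
      exact hab (hx.symm.trans hx')
    · exact hm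
  · ext x
    simp only [Set.mem_sUnion, Set.mem_range, exists_exists_eq_and, Set.mem_univ, iff_true]
    exact ⟨fl x, rfl⟩

theorem le_Theta (μ : Measure (Fin d → ℝ)) : μ ≤ Theta μ := by
  have h := Measure.le_sum (fun z : Fin d → ℤ => μ.map (fun x => x + zr z)) 0
  have h0 : μ.map (fun x => x + zr (0 : Fin d → ℤ)) = μ := by
    rw [zr_zero]
    simp
  rw [h0] at h
  exact h

theorem exists_density (μ : Measure (Fin d → ℝ)) [IsFiniteMeasure μ] :
    ∃ f : (Fin d → ℝ) → ℝ≥0∞, Measurable f ∧ μ = (Theta μ).withDensity f := by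
  have := Theta_sigmaFinite μ
  refine ⟨μ.rnDeriv (Theta μ), Measure.measurable_rnDeriv _ _, ?_⟩
  exact (Measure.withDensity_rnDeriv_eq μ (Theta μ)
    (Measure.absolutelyContinuous_of_le (le_Theta μ))).symm

theorem map_density (Θ : Measure (Fin d → ℝ)) (v : Fin d → ℝ)
    (hinv : Θ.map (fun x => x + v) = Θ) (f : (Fin d → ℝ) → ℝ≥0∞) (hf : Measurable f) :
    (Θ.withDensity f).map (fun x => x + v) = Θ.withDensity (fun x => f (x - v)) := by
  ext A hA
  rw [Measure.map_apply (sh_meas v) hA, withDensity_apply _ ((sh_meas v) hA),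
    withDensity_apply _ hA, ← lintegral_indicator ((sh_meas v) hA), ← lintegral_indicator hA]
  have hmp : MeasurePreserving (fun x : Fin d → ℝ => x + v) Θ Θ := ⟨sh_meas v, hinv⟩
  rw [← hmp.lintegral_comp_emb (MeasurableEquiv.addRight v).measurableEmbedding
    (A.indicator fun x => f (x - v))]
  apply lintegral_congr
  intro x
  by_cases hx : x + v ∈ A
  · rw [Set.indicator_of_mem hx, Set.indicator_of_mem (by exact hx)]
    simp
  · rw [Set.indicator_of_notMem hx, Set.indicator_of_notMem (by exact hx)]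

theorem density_sum (μ : Measure (Fin d → ℝ)) [IsFiniteMeasure μ] (f : (Fin d → ℝ) → ℝ≥0∞)
    (hf : Measurable f) (h : μ = (Theta μ).withDensity f) :
    ∀ᵐ x ∂(Theta μ), ∑' z : Fin d → ℤ, f (x - zr z) = 1 := by
  have hσ := Theta_sigmaFinite μ
  have hm : ∀ z : Fin d → ℤ, Measurable (fun x : Fin d → ℝ => f (x - zr z)) := fun z =>
    hf.comp (by fun_prop)
  have h1 : Theta μ = (Theta μ).withDensity (∑' z : Fin d → ℤ, fun x => f (x - zr z)) := by
    rw [withDensity_tsum hm]
    conv_lhs => unfold Theta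
    congr 1
    funext z
    rw [← map_density (Theta μ) (zr z) (Theta_inv μ z) f hf, ← h]
  have h2 : (Theta μ).withDensity (∑' z : Fin d → ℤ, fun x => f (x - zr z))
      = (Theta μ).withDensity 1 := by
    rw [withDensity_one]; exact h1.symm
  have h3 := (withDensity_eq_iff_of_sigmaFinite (by
    have : Measurable (∑' z : Fin d → ℤ, fun x : Fin d → ℝ => f (x - zr z)) := by
      have e : (∑' z : Fin d → ℤ, fun x : Fin d → ℝ => f (x - zr z))
          = fun x => ∑' z : Fin d → ℤ, f (x - zr z) := by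
        funext x
        rw [ENNReal.tsum_apply]
      rw [e]
      exact Measurable.ennreal_tsum hm
    exact this.aemeasurable) (measurable_one.aemeasurable)).1 h2
  filter_upwards [h3] with x hx
  rw [ENNReal.tsum_apply] at hx
  exact hx

theorem ae_translate (μ : Measure (Fin d → ℝ)) (p : (Fin d → ℝ) → Prop)
    (h : ∀ᵐ x ∂(Theta μ), p x) : ∀ᵐ x ∂(Theta μ), ∀ u : Fin d → ℤ, p (x + zr u) := by
  rw [ae_all_iff]
  intro u
  have hmp : MeasurePreserving (fun x : Fin d → ℝ => x + zr u) (Theta μ) (Theta μ) :=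
    ⟨sh_meas _, Theta_inv μ u⟩
  exact hmp.quasiMeasurePreserving.ae h

theorem rigid_fibre (μ : Measure (Fin d → ℝ)) [IsFiniteMeasure μ] (g : (Fin d → ℝ) → ℝ≥0∞)
    (hg : Measurable g) (ν : Measure (Fin d → ℝ)) [IsFiniteMeasure ν]
    (hν : ν = (Theta μ).withDensity g) (hs : SpecLike ν) :
    ∀ᵐ x ∂(Theta μ), ∀ u u' : Fin d → ℤ, g (x + zr u) ≠ 0 → g (x + zr u') ≠ 0 →
      g (x + zr u) = g (x + zr u') := by
  have hσ := Theta_sigmaFinite μ
  have h1 : ∀ᵐ x ∂(Theta μ), ∀ v : Fin d → ℤ, g x ≠ 0 → g (x - zr v) ≠ 0 → g x = g (x - zr v) := by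
    rw [ae_all_iff]
    intro v
    exact lemmaU (Theta μ) (zr v) (Theta_inv μ v) g hg ν hν hs
  filter_upwards [ae_translate μ _ h1] with x hx u u' hu hu'
  have h2 := hx u (u - u')
  have e : x + zr u - zr (u - u') = x + zr u' := by rw [zr_sub]; abel
  rw [e] at h2
  exact h2 hu hu'

/-- Injectivity of the point map from rigidity. -/
theorem inj_of_rigid (μ : Measure (Fin d → ℝ)) [IsProbabilityMeasure μ] (hs : SpecLike μ)
    {I : Type} [Fintype I] [DecidableEq I] [Nonempty I] (z : I → (Fin d → ℤ))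
    (hnz : ∀ p : ℕ, p.Prime → (∑ w, AddMonoidAlgebra.single (z w) (1 : ZMod p)) ≠ 0)
    (ν : Measure (Fin d → ℝ)) [IsFiniteMeasure ν]
    (hν : ν = ((Fintype.card I : ℝ≥0∞)⁻¹) • ∑ w, μ.map (fun x => x + zr (z w)))
    (hsν : SpecLike ν) : Function.Injective z := by
  obtain ⟨f, hf, hμf⟩ := exists_density μ
  set c : ℝ≥0∞ := (Fintype.card I : ℝ≥0∞)⁻¹ with hc
  have hc0 : c ≠ 0 := ENNReal.inv_ne_zero.2 (by simp)
  have hct : c ≠ ⊤ := ENNReal.inv_ne_top.2 (by simp)
  set g : (Fin d → ℝ) → ℝ≥0∞ := fun x => c * ∑ w, f (x - zr (z w)) with hgdef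
  have hm : ∀ v : Fin d → ℝ, Measurable (fun x : Fin d → ℝ => f (x - v)) := fun v =>
    hf.comp (by fun_prop)
  have hsum : Measurable (fun x : Fin d → ℝ => ∑ w, f (x - zr (z w))) :=
    Finset.measurable_fun_sum _ (fun w _ => hm _)
  have hg : Measurable g := hsum.const_mul c
  have hνg : ν = (Theta μ).withDensity g := by
    rw [hν]
    ext A hA
    rw [Measure.smul_apply, Measure.finsetSum_apply, withDensity_apply _ hA, hgdef,
      lintegral_const_mul _ hsum, lintegral_finsetSum _ (fun w _ => hm _), smul_eq_mul]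
    congr 1
    apply Finset.sum_congr rfl
    intro w _
    conv_lhs => rw [hμf]
    rw [map_density (Theta μ) _ (Theta_inv μ _) f hf, withDensity_apply _ hA]
  have h1 := rigid_fibre μ f hf μ hμf hs
  have h2 := rigid_fibre μ g hg ν hνg hsν
  have h3 := density_sum μ f hf hμf
  have hne : (ae (Theta μ)).NeBot := by
    rw [ae_neBot]
    intro h0
    have := le_Theta μ Set.univ
    rw [h0, measure_univ] at this
    simp at this
  obtain ⟨x, hx1, hx2, hx3⟩ := (h1.and (h2.and h3)).exists
  set F : (Fin d → ℤ) → ℝ≥0∞ := fun u => f (x + zr u) with hF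
  have hFsum : ∑' u, F u = 1 := by
    rw [← (Equiv.neg (Fin d → ℤ)).tsum_eq]
    rw [← hx3]
    congr 1
    funext z
    simp only [hF, Equiv.neg_apply, zr_neg]
    rw [sub_eq_add_neg]
  obtain ⟨u0, hu0⟩ : ∃ u, F u ≠ 0 := by
    by_contra hcon
    push Not at hcon
    rw [ENNReal.tsum_eq_zero.2 hcon] at hFsum
    exact zero_ne_one hFsum
  set φ := F u0 with hφ
  have hφt : φ ≠ ⊤ := by
    have : φ ≤ 1 := by rw [← hFsum]; exact ENNReal.le_tsum u0
    exact ne_top_of_le_ne_top ENNReal.one_ne_top this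
  have hFφ : ∀ u, F u ≠ 0 → F u = φ := fun u hu => hx1 u u0 hu hu0
  have hSfin : {u | F u ≠ 0}.Finite := by
    have h5 := ENNReal.finite_const_le_of_tsum_ne_top (a := F) (by rw [hFsum]; simp) hu0
    refine h5.subset ?_
    intro u hu
    simp only [Set.mem_setOf_eq] at hu ⊢
    rw [hFφ u hu]
  set S : Finset (Fin d → ℤ) := hSfin.toFinset with hS
  have hmemS : ∀ u, u ∈ S ↔ F u ≠ 0 := fun u => by rw [hS]; simp
  have hG : ∀ u, g (x + zr u) = c * (φ * ((Finset.univ.filter (fun w => u - z w ∈ S)).card : ℝ≥0∞)) := by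
    intro u
    rw [hgdef]
    simp only
    congr 1
    have : ∀ w ∈ (Finset.univ : Finset I), f (x + zr u - zr (z w))
        = if u - z w ∈ S then φ else 0 := by
      intro w _
      have e : f (x + zr u - zr (z w)) = F (u - z w) := by
        simp only [hF, zr_sub]
        congr 1
        abel
      rw [e]
      split_ifs with h
      · exact hFφ _ ((hmemS _).1 h)
      · by_contra hne
        exact h ((hmemS _).2 hne)
    rw [Finset.sum_congr rfl this, ← Finset.sum_filter, Finset.sum_const, nsmul_eq_mul, mul_comm]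
  apply inj_of_const z S ⟨u0, (hmemS u0).2 hu0⟩ hnz
  intro u u' hu hu'
  have hGu : g (x + zr u) ≠ 0 := by
    rw [hG]
    exact mul_ne_zero hc0 (mul_ne_zero hu0 (by exact_mod_cast hu))
  have hGu' : g (x + zr u') ≠ 0 := by
    rw [hG]
    exact mul_ne_zero hc0 (mul_ne_zero hu0 (by exact_mod_cast hu'))
  have h6 := hx2 u u' hGu hGu'
  rw [hG, hG, ENNReal.mul_right_inj hc0 hct, ENNReal.mul_right_inj hu0 hφt] at h6
  exact_mod_cast h6

end Pool.Agent.X125.Ov
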