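import Mathlib

/-! Spectral measures: densities with respect to an invariant measure are locally constant along
translations. -/

set_option autoImplicit false
open MeasureTheory Filter Topology
open scoped ENNReal

namespace Pool.Agent.X125.Ov

/-- A measure with a family of characters such that the moduli of the coefficients determine
the norm. -/
def SpecLike {d : ℕ} (ν : Measure (Fin d → ℝ)) : Prop :=
  ∃ K : Set ((Fin d → ℝ) → ℂ), (∀ χ ∈ K, Measurable χ ∧ (∀ x, ‖χ x‖ = 1) ∧
      ∀ x y, χ (x + y) = χ x * χ y) ∧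
    ∀ h h' : (Fin d → ℝ) → ℂ, MemLp h 2 ν → MemLp h' 2 ν →
      (∀ χ ∈ K, ‖∫ x, h x * χ x ∂ν‖ = ‖∫ x, h' x * χ x ∂ν‖) → eLpNorm h 2 ν = eLpNorm h' 2 ν

theorem eLpNorm_two_inj {α : Type*} [MeasurableSpace α] {ν : Measure α} {h h' : α → ℂ}
    (heq : eLpNorm h 2 ν = eLpNorm h' 2 ν) :
    ∫⁻ x, ‖h x‖ₑ ^ 2 ∂ν = ∫⁻ x, ‖h' x‖ₑ ^ 2 ∂ν := by
  rw [eLpNorm_eq_lintegral_rpow_enorm_toReal (by norm_num) (by norm_num),
    eLpNorm_eq_lintegral_rpow_enorm_toReal (by norm_num) (by norm_num)] at heq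
  simp only [ENNReal.toReal_ofNat, ENNReal.rpow_ofNat] at heq
  have := (ENNReal.rpow_left_injective (x := 1 / (2 : ℝ)) (by norm_num)) heq
  exact this

theorem lemmaU {d : ℕ} (Θ : Measure (Fin d → ℝ)) [SigmaFinite Θ] (v : Fin d → ℝ)
    (hinv : Θ.map (fun x => x + v) = Θ) (g : (Fin d → ℝ) → ℝ≥0∞) (hg : Measurable g)
    (ν : Measure (Fin d → ℝ)) [IsFiniteMeasure ν] (hν : ν = Θ.withDensity g)
    (hs : SpecLike ν) : ∀ᵐ x ∂Θ, g x ≠ 0 → g (x - v) ≠ 0 → g x = g (x - v) := by
  obtain ⟨K, hK, hP⟩ := hs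
  have hmv : Measurable (fun x : Fin d → ℝ => x + v) := by fun_prop
  have hmv' : Measurable (fun x : Fin d → ℝ => x - v) := by fun_prop
  have hgv : Measurable (fun x : Fin d → ℝ => g (x - v)) := hg.comp hmv'
  have hgv2 : Measurable (fun x : Fin d → ℝ => g (x + v)) := hg.comp hmv
  have hfin : ∀ᵐ x ∂Θ, g x < ⊤ := by
    apply ae_lt_top hg
    have : ∫⁻ x, g x ∂Θ = ν Set.univ := by
      rw [hν, withDensity_apply _ MeasurableSet.univ, Measure.restrict_univ]
    rw [this]
    exact measure_ne_top _ _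
  have hmp : MeasurePreserving (fun x : Fin d → ℝ => x + v) Θ Θ := ⟨hmv, hinv⟩
  have hfin' : ∀ᵐ x ∂Θ, g (x - v) < ⊤ := by
    have h1 : MeasurePreserving (fun x : Fin d → ℝ => x - v) Θ Θ := by
      refine ⟨hmv', ?_⟩
      conv_lhs => rw [← hinv]
      rw [Measure.map_map hmv' hmv]
      have : (fun x : Fin d → ℝ => x - v) ∘ (fun x => x + v) = id := by
        funext x; simp
      rw [this, Measure.map_id]
    exact h1.quasiMeasurePreserving.ae hfin
  -- the truncated sets
  set A : ℕ → Set (Fin d → ℝ) := fun M => {x | ((M : ℝ≥0∞) + 1)⁻¹ ≤ g x ∧ g x ≤ (M : ℝ≥0∞) + 1 ∧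
    ((M : ℝ≥0∞) + 1)⁻¹ ≤ g (x - v) ∧ g (x - v) ≤ (M : ℝ≥0∞) + 1} with hA
  have hAm : ∀ M, MeasurableSet (A M) := by
    intro M
    have h1 : MeasurableSet {x | ((M : ℝ≥0∞) + 1)⁻¹ ≤ g x} := measurableSet_le measurable_const hg
    have h2 : MeasurableSet {x | g x ≤ (M : ℝ≥0∞) + 1} := measurableSet_le hg measurable_const
    have h3 : MeasurableSet {x | ((M : ℝ≥0∞) + 1)⁻¹ ≤ g (x - v)} :=
      measurableSet_le measurable_const hgv
    have h4 : MeasurableSet {x | g (x - v) ≤ (M : ℝ≥0∞) + 1} := measurableSet_le hgv measurable_const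
    exact h1.inter (h2.inter (h3.inter h4))
  have key : ∀ M : ℕ, ∀ C : Set (Fin d → ℝ), MeasurableSet C → C ⊆ A M →
      ∫⁻ x in C, g x ∂Θ = ∫⁻ x in C, g x ^ 2 / g (x - v) ∂Θ := by
    intro M C hC hCA
    set h : (Fin d → ℝ) → ℂ := C.indicator (fun _ => 1) with hh
    set r : (Fin d → ℝ) → ℝ := fun y => (g (y + v) / g y).toReal with hr
    have hrm : Measurable r := (hgv2.div hg).ennreal_toReal
    set h' : (Fin d → ℝ) → ℂ := fun y => h (y + v) * (r y : ℂ) with hh'
    have hhm : Measurable h := measurable_const.indicator hC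
    have hh'm : Measurable h' := (hhm.comp hmv).mul (Complex.measurable_ofReal.comp hrm)
    -- facts on C
    have hCf : ∀ y, y + v ∈ C → g y ≠ 0 ∧ g y ≠ ⊤ ∧ g (y + v) ≠ 0 ∧ g (y + v) ≠ ⊤ ∧
        g (y + v) / g y ≤ ((M : ℝ≥0∞) + 1) * ((M : ℝ≥0∞) + 1) := by
      intro y hy
      obtain ⟨a1, a2, a3, a4⟩ := hCA hy
      have e : y + v - v = y := by simp
      simp only [e] at a3 a4
      have hMt : ((M : ℝ≥0∞) + 1) ≠ ⊤ := by simp
      have hM0 : ((M : ℝ≥0∞) + 1)⁻¹ ≠ 0 := ENNReal.inv_ne_zero.2 hMt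
      refine ⟨?_, ne_top_of_le_ne_top hMt a4, ?_, ne_top_of_le_ne_top hMt a2, ?_⟩
      · intro h0; rw [h0] at a3; exact hM0 (le_antisymm a3 bot_le)
      · intro h0; rw [h0] at a1; exact hM0 (le_antisymm a1 bot_le)
      · rw [ENNReal.div_eq_inv_mul, mul_comm]
        apply mul_le_mul' a2
        rw [ENNReal.inv_le_iff_inv_le]
        exact a3
    have hL1 : MemLp h 2 ν := by
      refine MemLp.of_bound hhm.aestronglyMeasurable 1 (Eventually.of_forall fun x => ?_)
      rw [hh]
      by_cases hx : x ∈ C <;> simp [hx]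
    have hL2 : MemLp h' 2 ν := by
      refine MemLp.of_bound hh'm.aestronglyMeasurable
        ((((M : ℝ≥0∞) + 1) * ((M : ℝ≥0∞) + 1)).toReal) (Eventually.of_forall fun y => ?_)
      by_cases hy : y + v ∈ C
      · obtain ⟨_, _, _, _, a5⟩ := hCf y hy
        have : h (y + v) = 1 := by rw [hh]; simp [hy]
        rw [hh']
        simp only [this, one_mul, Complex.norm_real, Real.norm_eq_abs]
        rw [hr]
        simp only
        rw [abs_of_nonneg ENNReal.toReal_nonneg]
        exact ENNReal.toReal_mono (ENNReal.mul_ne_top (by simp) (by simp)) a5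
      · have : h (y + v) = 0 := by rw [hh]; simp [hy]
        rw [hh']
        simp only [this, zero_mul, norm_zero]
        exact ENNReal.toReal_nonneg
    have hcoef : ∀ χ ∈ K, ‖∫ x, h x * χ x ∂ν‖ = ‖∫ x, h' x * χ x ∂ν‖ := by
      intro χ hχ
      obtain ⟨hχm, hχn, hχa⟩ := hK χ hχ
      have e1 : ∫ x, h x * χ x ∂ν = ∫ x, ((g x).toReal : ℂ) * (h x * χ x) ∂Θ := by
        rw [hν, integral_withDensity_eq_integral_toReal_smul hg hfin]
        apply integral_congr_ae
        filter_upwards with x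
        rw [Complex.real_smul]
      have e2 : ∫ x, h' x * χ x ∂ν = ∫ x, ((g x).toReal : ℂ) * (h' x * χ x) ∂Θ := by
        rw [hν, integral_withDensity_eq_integral_toReal_smul hg hfin]
        apply integral_congr_ae
        filter_upwards with x
        rw [Complex.real_smul]
      have e3 : ∫ x, ((g x).toReal : ℂ) * (h' x * χ x) ∂Θ
          = ∫ x, χ (-v) * (((g x).toReal : ℂ) * (h x * χ x)) ∂Θ := by
        have hcomp := hmp.integral_comp (MeasurableEquiv.addRight v).measurableEmbedding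
          (fun x => χ (-v) * (((g x).toReal : ℂ) * (h x * χ x)))
        rw [← hcomp]
        apply integral_congr_ae
        filter_upwards with y
        have hv : χ (y + v) = χ y * χ v := hχa y v
        have hvv : χ (-v) * χ v = 1 := by
          rw [← hχa]
          have h0 : χ 0 * χ 0 = χ 0 := by rw [← hχa]; simp
          have h1 : χ 0 ≠ 0 := by
            intro h; have := hχn 0; rw [h] at this; simp at this
          have := mul_right_cancel₀ h1 (h0.trans (one_mul _).symm)
          rw [neg_add_cancel]; exact this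
        by_cases hy : y + v ∈ C
        · obtain ⟨a1, a2, a3, a4, _⟩ := hCf y hy
          have hone : h (y + v) = 1 := by rw [hh]; simp [hy]
          rw [hh']
          simp only [hone, one_mul]
          have : (g y).toReal * r y = (g (y + v)).toReal := by
            rw [hr]
            simp only
            rw [← ENNReal.toReal_mul, ENNReal.mul_div_cancel a1 a2]
          rw [hv]
          calc ((g y).toReal : ℂ) * ((r y : ℂ) * χ y) = (((g y).toReal * r y : ℝ) : ℂ) * χ y := by
                push_cast; ring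
            _ = ((g (y + v)).toReal : ℂ) * χ y * (χ (-v) * χ v) := by rw [this, hvv, mul_one]
            _ = _ := by ring
        · have hz : h (y + v) = 0 := by rw [hh]; simp [hy]
          rw [hh']
          simp only [hz, zero_mul, mul_zero]
      rw [e1, e2, e3, integral_const_mul, norm_mul, hχn, one_mul]
    have hnorm := eLpNorm_two_inj (hP h h' hL1 hL2 hcoef)
    rw [hν, lintegral_withDensity_eq_lintegral_mul _ hg (by fun_prop),
      lintegral_withDensity_eq_lintegral_mul _ hg (by fun_prop)] at hnorm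
    have f1 : ∫⁻ x, (g * fun x => ‖h x‖ₑ ^ 2) x ∂Θ = ∫⁻ x in C, g x ∂Θ := by
      rw [← lintegral_indicator hC]
      apply lintegral_congr
      intro x
      simp only [Pi.mul_apply]
      by_cases hx : x ∈ C
      · have : h x = 1 := by rw [hh]; simp [hx]
        rw [this]; simp [hx]
      · have : h x = 0 := by rw [hh]; simp [hx]
        rw [this]; simp [hx]
    have f2 : ∫⁻ x, (g * fun x => ‖h' x‖ₑ ^ 2) x ∂Θ = ∫⁻ x in C, g x ^ 2 / g (x - v) ∂Θ := by
      rw [← lintegral_indicator hC]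
      rw [← hmp.lintegral_comp_emb (MeasurableEquiv.addRight v).measurableEmbedding
        (C.indicator fun x => g x ^ 2 / g (x - v))]
      apply lintegral_congr
      intro y
      simp only [Pi.mul_apply]
      by_cases hy : y + v ∈ C
      · obtain ⟨a1, a2, a3, a4, _⟩ := hCf y hy
        have hone : h (y + v) = 1 := by rw [hh]; simp [hy]
        have e5 : ‖h' y‖ₑ = g (y + v) / g y := by
          rw [hh']
          simp only [hone, one_mul]
          rw [← ofReal_norm, Complex.norm_real, Real.norm_eq_abs]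
          rw [hr]
          simp only
          rw [abs_of_nonneg ENNReal.toReal_nonneg, ENNReal.ofReal_toReal]
          exact ENNReal.div_ne_top a4 a1
        rw [e5, Set.indicator_of_mem hy]
        have e6 : y + v - v = y := by simp
        rw [e6, ENNReal.div_eq_inv_mul, ENNReal.div_eq_inv_mul, mul_pow]
        calc g y * ((g y)⁻¹ ^ 2 * g (y + v) ^ 2) = (g y * (g y)⁻¹) * ((g y)⁻¹ * g (y + v) ^ 2) := by
              ring
          _ = _ := by rw [ENNReal.mul_inv_cancel a1 a2, one_mul]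
      · have hz : h (y + v) = 0 := by rw [hh]; simp [hy]
        have : h' y = 0 := by rw [hh']; simp only [hz, zero_mul]
        rw [this, Set.indicator_of_notMem hy]
        simp
    rw [f1, f2] at hnorm
    exact hnorm
  have key2 : ∀ M : ℕ, ∀ᵐ x ∂Θ, x ∈ A M → g x = g (x - v) := by
    intro M
    have h1 : g =ᵐ[Θ.restrict (A M)] fun x => g x ^ 2 / g (x - v) := by
      apply ae_eq_of_forall_setLIntegral_eq_of_sigmaFinite hg ((hg.pow_const 2).div hgv)
      intro s hs _
      rw [Measure.restrict_restrict hs]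
      exact key M (s ∩ A M) (hs.inter (hAm M)) Set.inter_subset_right
    rw [Filter.EventuallyEq, ae_restrict_iff' (hAm M)] at h1
    filter_upwards [h1] with x hx hxA
    have hx2 := hx hxA
    obtain ⟨a1, a2, a3, a4⟩ := hxA
    have hMt : ((M : ℝ≥0∞) + 1) ≠ ⊤ := by simp
    have hM0 : ((M : ℝ≥0∞) + 1)⁻¹ ≠ 0 := ENNReal.inv_ne_zero.2 hMt
    have b1 : g x ≠ 0 := fun h0 => by rw [h0] at a1; exact hM0 (le_antisymm a1 bot_le)
    have b2 : g x ≠ ⊤ := ne_top_of_le_ne_top hMt a2
    have b3 : g (x - v) ≠ 0 := fun h0 => by rw [h0] at a3; exact hM0 (le_antisymm a3 bot_le)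
    have b4 : g (x - v) ≠ ⊤ := ne_top_of_le_ne_top hMt a4
    have h5 : g x * g (x - v) = g x ^ 2 := by
      conv_lhs => rw [hx2]
      exact ENNReal.div_mul_cancel b3 b4
    rw [pow_two] at h5
    exact ((ENNReal.mul_right_inj b1 b2).1 h5).symm
  have key3 := ae_all_iff.2 key2
  filter_upwards [key3, hfin, hfin'] with x hx h1 h2 h3 h4
  -- choose M
  obtain ⟨M, hM1, hM2, hM3, hM4⟩ : ∃ M : ℕ, (g x ≤ M) ∧ (g (x - v) ≤ M) ∧ ((g x)⁻¹ ≤ M)
      ∧ ((g (x - v))⁻¹ ≤ M) := by
    obtain ⟨M1, h1'⟩ := ENNReal.exists_nat_gt h1.ne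
    obtain ⟨M2, h2'⟩ := ENNReal.exists_nat_gt h2.ne
    obtain ⟨M3, h3'⟩ := ENNReal.exists_nat_gt (ENNReal.inv_ne_top.2 h3)
    obtain ⟨M4, h4'⟩ := ENNReal.exists_nat_gt (ENNReal.inv_ne_top.2 h4)
    refine ⟨M1 + M2 + M3 + M4, ?_, ?_, ?_, ?_⟩
    · refine h1'.le.trans ?_; exact_mod_cast (by omega : M1 ≤ M1 + M2 + M3 + M4)
    · refine h2'.le.trans ?_; exact_mod_cast (by omega : M2 ≤ M1 + M2 + M3 + M4)
    · refine h3'.le.trans ?_; exact_mod_cast (by omega : M3 ≤ M1 + M2 + M3 + M4)
    · refine h4'.le.trans ?_; exact_mod_cast (by omega : M4 ≤ M1 + M2 + M3 + M4)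
  apply hx M
  have hle : (M : ℝ≥0∞) ≤ M + 1 := le_self_add
  refine ⟨?_, hM1.trans hle, ?_, hM2.trans hle⟩
  · rw [ENNReal.inv_le_iff_inv_le]; exact hM3.trans hle
  · rw [ENNReal.inv_le_iff_inv_le]; exact hM4.trans hle

end Pool.Agent.X125.Ov
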